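import Pool.Agent.Helper95.PN.Stmts
import Pool.Agent.Helper26.PW.MorKin

/-!
# Row KID: the kinetic identity
-/

set_option autoImplicit false

namespace Pool.Agent.Helper95.PW

open MeasureTheory Filter

theorem KID_one {n : ℕ} (hI : ST_IBP) (hP : ST_PAN) (g : R3 → ℝ) (hg : ContDiff ℝ (⊤ : ℕ∞) g)
    (v : Cf n → ℝ) (hv : ContDiff ℝ (⊤ : ℕ∞) v) (hc : HasCompactSupport v) :
    ∫ x, Pg g v x * (-(∑ k, ∑ i, dv k i (dv k i v) x)) =
      (∑ k, ∑ i, ∑ l, ∫ x, pd i (pd l g) (x k) * (dv k i v x * dv k l v x)) -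
        1 / 4 * ∫ x, (∑ k, lap (lap g) (x k)) * v x ^ 2 := by
  have h := Pool.Agent.Helper26.PW.mk_id hI hP g hg v hv hc
  have hDv : ∀ (k : Fin n) (j : Fin 3), ContDiff ℝ (⊤ : ℕ∞) (dv k j v) := fun k j => hf_cd hv _
  have hDc : ∀ (k : Fin n) (j : Fin 3), HasCompactSupport (dv k j v) := fun k j =>
    Pool.Agent.Helper2.PW.stb_cs_dv k j hc
  have hgij : ∀ (k : Fin n) (i j : Fin 3),
      ContDiff ℝ (⊤ : ℕ∞) (fun x : Cf n => pd i (pd j g) (x k)) := fun k i j =>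
    Pool.Agent.Helper2.PW.stb_ev k (Pool.Agent.Helper2.PW.stb_pd i
      (Pool.Agent.Helper2.PW.stb_pd j hg))
  have j0 : ∀ (k : Fin n) (i l : Fin 3), Integrable (fun x : Cf n =>
      pd i (pd l g) (x k) * (dv k i v x * dv k l v x)) := fun k i l =>
    Pool.Agent.Helper26.PW.mk_int (hgij k i l).continuous
      ((hDv k i).continuous.mul (hDv k l).continuous) (hDc k l).mul_left
  have e1 : ∫ x, Pg g v x * (-(∑ k, ∑ i, dv k i (dv k i v) x)) =
      -∫ x, (∑ k, ∑ i, dv k i (dv k i v) x) * Pg g v x := by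
    rw [← integral_neg]
    congr 1
    funext x
    ring
  have e2 : ∫ x, (∑ k, -(1 / 2) * lap (lap g) (x k)) * v x ^ 2 =
      -(1 / 2) * ∫ x, (∑ k, lap (lap g) (x k)) * v x ^ 2 := by
    rw [← integral_const_mul]
    congr 1
    funext x
    rw [← Finset.mul_sum]
    ring
  have e3 : ∫ x, ∑ k, ∑ i, ∑ j, pd i (pd j g) (x k) * (dv k i v x * dv k j v x) =
      ∑ k, ∑ i, ∑ l, ∫ x, pd i (pd l g) (x k) * (dv k i v x * dv k l v x) := by
    rw [integral_finsetSum _ (fun k _ => integrable_finsetSum _ fun i _ =>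
      integrable_finsetSum _ fun l _ => j0 k i l)]
    refine Finset.sum_congr rfl fun k _ => ?_
    rw [integral_finsetSum _ (fun i _ => integrable_finsetSum _ fun l _ => j0 k i l)]
    refine Finset.sum_congr rfl fun i _ => ?_
    rw [integral_finsetSum _ (fun l _ => j0 k i l)]
  rw [e2, e3] at h
  rw [e1]
  linarith

theorem st_KID (h1 : ST_IBP) (h2 : ST_PAN) (_h3 : ST_STB) : ST_KID := by
  intro n g u hg hu
  have h : ∀ s, ∫ x, Pg g (u s) x * (-(∑ k, ∑ i, dv k i (dv k i (u s)) x)) =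
      (∑ k, ∑ i, ∑ l, ∫ x, pd i (pd l g) (x k) * (dv k i (u s) x * dv k l (u s) x)) -
        1 / 4 * ∫ x, (∑ k, lap (lap g) (x k)) * u s x ^ 2 :=
    fun s => KID_one h1 h2 g hg (u s) (hu s).1 (hu s).2
  rw [Finset.sum_congr rfl fun s _ => h s, Finset.sum_sub_distrib, one, Finset.mul_sum]

end Pool.Agent.Helper95.PW
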